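import Pool.Agent.Helper90.Ball.Final
import Pool.Agent.Helper90.SpinalGrowth

namespace Pool.Agent.Results.MP_bf8038_al.BallInvariance

open Pool.Agent.Helper90.Spinal Pool.Agent.Helper90.Ball Pool.Agent.Helper93.Geo

/-- Let `S` be a finite subset of a group and let `T` be any set which contains the sphere and is
contained in the ball of radius `k` of `S`, and which generates the same monoid as `S`. Then the
geodesic growth functions of `S` and `T` determine each other up to constants in the exponents. -/
theorem result (G : Type*) [Group G] (S T : Set G) (hS : S.Finite) (k : ℕ) (hk : 0 < k)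
    (hball : ∀ t ∈ T, ∃ l : List G, (∀ s ∈ l, s ∈ S) ∧ l.length ≤ k ∧ l.prod = t)
    (hsphere : ∀ l : List G, IsGeodesic S l → l.length = k → l.prod ∈ T)
    (hgen : ∀ s ∈ S, ∃ l : List G, (∀ t ∈ l, t ∈ T) ∧ l.prod = s) :
    ∃ A : ℕ, ∀ n : ℕ, geodesicGrowth T n ≤ (A * geodesicGrowth S (k * n)) ^ A ∧
      geodesicGrowth S (k * n) ≤ (A * geodesicGrowth T n) ^ A := by
  obtain ⟨A, -, h⟩ := main ⟨hball, hsphere, hgen⟩ hS hk
  exact ⟨A, h⟩

/-- The pair of `S` has intermediate volume growth and intermediate geodesic growth if and only if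
the pair of `T` has. -/
theorem example_iff (G : Type*) [Group G] (S T : Set G) (hS : S.Finite) (k : ℕ) (hk : 0 < k)
    (h : Between S T k) :
    (IntermediateGrowth (volumeGrowth S) ∧ IntermediateGrowth (geodesicGrowth S)) ↔
      (IntermediateGrowth (volumeGrowth T) ∧ IntermediateGrowth (geodesicGrowth T)) :=
  and_congr (volume_iff h hS) (intermediate_iff h hS hk)

/-- Every spinal group has exponential geodesic growth with respect to every set `T` between the
sphere and the ball of radius `k` of its standard generating set, for instance the ball. -/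
theorem spinal (X A B : Type) [DecidableEq X] [Group A] [Finite A] [Group B] [Finite B]
    [MulAction A X] [FaithfulSMul A X] [MulAction.IsPretransitive A X]
    (o : X) (ω : ℕ → X → B →* A) (h : Good o ω) (h₄ : ¬ (Nat.card X = 2 ∧ Nat.card B = 2))
    (T : Set (Equiv.Perm (List X))) (k : ℕ) (hk : 0 < k)
    (hT : Between (spinalGenerators o ω) T k) :
    ∃ K : ℕ, 0 < K ∧ ∀ n, 2 ^ (n / K) ≤ geodesicGrowth T n :=
  (exponential_iff hT (finite_gens o ω) hk).1 (expo_growth h h₄)

end Pool.Agent.Results.MP_bf8038_al.BallInvariance
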