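import Pool.Agent.Helper45.Geo.Dihedral2

namespace Pool.Agent.Results.MP_bf8038_al.DihedralQuotient

open Pool.Agent.Helper90.Spinal

/-- A necessary condition on a group `G` with non-exponential (in particular with intermediate)
geodesic growth over a finite symmetric generating set `S`, when `G` acts on the integers by the
isometries `x ↦ χ g + ε g * x`, some element acting as a non-trivial translation (equivalently: `G`
has a homomorphism with infinite image to the infinite dihedral group).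

There is a word `u` over `S` of length one or two which acts as a translation by a positive number and
is the unique fastest translation: a word `w` over `S` which acts as a translation satisfies
`|u| * χ w ≤ |w| * χ u`, with equality only if `w` is a power of the word `u`; and for every `p ≥ 1`
the normal closure of the `p`-th power of its value has finite index in `G`. -/
theorem result (G : Type*) [Group G] (ε : G →* ℤˣ) (χ : G → ℤ)
    (hχ : ∀ g h, χ (g * h) = χ g + ((ε g : ℤˣ) : ℤ) * χ h) (hne : ∃ g, ε g = 1 ∧ χ g ≠ 0)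
    (S : Set G) (hS : S.Finite) (hsym : ∀ s ∈ S, s⁻¹ ∈ S) (hgen : Subgroup.closure S = ⊤)
    (hγ : ¬ ∃ K : ℕ, 0 < K ∧ ∀ n, 2 ^ (n / K) ≤ geodesicGrowth S n) :
    ∃ u : List G, (u.length = 1 ∨ u.length = 2) ∧ (∀ s ∈ u, s ∈ S) ∧ ε u.prod = 1 ∧
      0 < χ u.prod ∧
      (∀ w : List G, (∀ s ∈ w, s ∈ S) → ε w.prod = 1 →
        (u.length : ℤ) * χ w.prod ≤ (w.length : ℤ) * χ u.prod ∧
        ((u.length : ℤ) * χ w.prod = (w.length : ℤ) * χ u.prod →
          ∃ k : ℕ, w = (List.replicate k u).flatten)) ∧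
      ∀ p : ℕ, 0 < p → (Subgroup.normalClosure {u.prod ^ p}).FiniteIndex :=
  (Pool.Agent.Helper45.Geo.dihedral_full ε χ hχ hne S hS hsym hgen hγ).1

/-- Consequence: every torsion quotient of such a group `G` is finite. -/
theorem torsion_quotient_finite (G : Type*) [Group G] (ε : G →* ℤˣ) (χ : G → ℤ)
    (hχ : ∀ g h, χ (g * h) = χ g + ((ε g : ℤˣ) : ℤ) * χ h) (hne : ∃ g, ε g = 1 ∧ χ g ≠ 0)
    (S : Set G) (hS : S.Finite) (hsym : ∀ s ∈ S, s⁻¹ ∈ S) (hgen : Subgroup.closure S = ⊤)
    (hγ : ¬ ∃ K : ℕ, 0 < K ∧ ∀ n, 2 ^ (n / K) ≤ geodesicGrowth S n) :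
    ∀ N : Subgroup G, N.Normal → (∀ g : G, ∃ k : ℕ, 0 < k ∧ g ^ k ∈ N) → N.FiniteIndex :=
  (Pool.Agent.Helper45.Geo.dihedral_full ε χ hχ hne S hS hsym hgen hγ).2.1

/-- Consequence: for every other action of such a group `G` on the integers with the same
orientations the translation lengths are proportional to those of the given one. -/
theorem translations_proportional (G : Type*) [Group G] (ε : G →* ℤˣ) (χ : G → ℤ)
    (hχ : ∀ g h, χ (g * h) = χ g + ((ε g : ℤˣ) : ℤ) * χ h) (hne : ∃ g, ε g = 1 ∧ χ g ≠ 0)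
    (S : Set G) (hS : S.Finite) (hsym : ∀ s ∈ S, s⁻¹ ∈ S) (hgen : Subgroup.closure S = ⊤)
    (hγ : ¬ ∃ K : ℕ, 0 < K ∧ ∀ n, 2 ^ (n / K) ≤ geodesicGrowth S n) :
    ∀ χ' : G → ℤ, (∀ g h, χ' (g * h) = χ' g + ((ε g : ℤˣ) : ℤ) * χ' h) →
      ∃ a b : ℤ, a ≠ 0 ∧ ∀ g, ε g = 1 → a * χ' g = b * χ g :=
  (Pool.Agent.Helper45.Geo.dihedral_full ε χ hχ hne S hS hsym hgen hγ).2.2

/-- The orientation character of the infinite dihedral group. -/
def dihEps : DihedralGroup 0 →* ℤˣ where
  toFun g := match g with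
    | .r _ => 1
    | .sr _ => -1
  map_one' := rfl
  map_mul' g h := by
    rcases g with i | i <;> rcases h with j | j <;> rfl

/-- The translation part of the action of the infinite dihedral group on the integers. -/
def dihChi (g : DihedralGroup 0) : ℤ := match g with
  | .r i => (i : ℤ)
  | .sr i => -(i : ℤ)

theorem dihChi_mul (g h : DihedralGroup 0) :
    dihChi (g * h) = dihChi g + ((dihEps g : ℤˣ) : ℤ) * dihChi h := by
  have k1 : ∀ i j : ℤ, i + j = i + ((1 : ℤˣ) : ℤ) * j := fun i j => by simp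
  have k2 : ∀ i j : ℤ, -(j - i) = i + ((1 : ℤˣ) : ℤ) * (-j) := fun i j => by simp; ring
  have k3 : ∀ i j : ℤ, -(i + j) = -i + ((-1 : ℤˣ) : ℤ) * j := fun i j => by simp; ring
  have k4 : ∀ i j : ℤ, j - i = -i + ((-1 : ℤˣ) : ℤ) * (-j) := fun i j => by simp; ring
  rcases g with i | i <;> rcases h with j | j
  · exact k1 i j
  · exact k2 i j
  · exact k3 i j
  · exact k4 i j

/-- Consequence: for an infinite torsion group `T` the group `T × D_∞` has exponential geodesic
growth over every finite symmetric generating set. -/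
theorem torsion_prod_dihedral (T : Type*) [Group T] [Infinite T] (hT : ∀ t : T, ∃ k : ℕ, 0 < k ∧ t ^ k = 1)
    (S : Set (T × DihedralGroup 0)) (hS : S.Finite) (hsym : ∀ s ∈ S, s⁻¹ ∈ S)
    (hgen : Subgroup.closure S = ⊤) :
    ∃ K : ℕ, 0 < K ∧ ∀ n, 2 ^ (n / K) ≤ geodesicGrowth S n := by
  by_contra hγ
  have h := torsion_quotient_finite (T × DihedralGroup 0) (dihEps.comp (MonoidHom.snd T (DihedralGroup 0)))
    (fun g => dihChi g.2) (fun g h => dihChi_mul g.2 h.2)
    ⟨(1, DihedralGroup.r 1), rfl, by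
      change (1 : ℤ) ≠ 0
      exact one_ne_zero⟩ S hS hsym hgen hγ (MonoidHom.fst T (DihedralGroup 0)).ker inferInstance
    (fun g => by
      obtain ⟨k, hk, hk1⟩ := hT g.1
      exact ⟨k, hk, by
        rw [MonoidHom.mem_ker, map_pow]
        exact hk1⟩)
  have h2 : Finite ((T × DihedralGroup 0) ⧸ (MonoidHom.fst T (DihedralGroup 0)).ker) :=
    Subgroup.finite_quotient_of_finiteIndex
  have hsur : Function.Surjective (MonoidHom.fst T (DihedralGroup 0)) := fun t => ⟨(t, 1), rfl⟩
  have h3 : Finite T := Finite.of_equiv _ (QuotientGroup.quotientKerEquivOfSurjective _ hsur).toEquiv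
  exact not_finite T

end Pool.Agent.Results.MP_bf8038_al.DihedralQuotient
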