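import Pool.Agent.Helper93.Geo.NormalClosure

namespace Pool.Agent.Results.MP_bf8038_al.NormalClosure

open Pool.Agent.Helper90.Spinal

/-- A necessary condition for non-exponential (in particular for intermediate) geodesic growth of
a group `G` with a non-trivial homomorphism `χ` to the integers: the generating set `S` has exactly
one letter `t` with the largest value of `χ`, and the normal closure of every power `t ^ p`,
`p ≥ 1`, has finite index in `G`. -/
theorem result (G : Type*) [Group G] (χ : G →* Multiplicative ℤ) (hχ : χ ≠ 1) (S : Set G)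
    (hS : S.Finite) (hgen : Submonoid.closure S = ⊤)
    (hγ : ¬ ∃ K : ℕ, 0 < K ∧ ∀ n, 2 ^ (n / K) ≤ geodesicGrowth S n) :
    ∃ t ∈ S, (∀ s ∈ S, s ≠ t → Multiplicative.toAdd (χ s) < Multiplicative.toAdd (χ t)) ∧
      ∀ p : ℕ, 0 < p → (Subgroup.normalClosure {t ^ p}).FiniteIndex :=
  Pool.Agent.Helper93.Geo.normalClosure_criterion χ hχ S hS hgen hγ

end Pool.Agent.Results.MP_bf8038_al.NormalClosure
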