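import Pool.Agent.Helper90.SpinalGrowth

namespace Pool.Agent.Results.MP_bf8038_al.SpinalExp

open Pool.Agent.Helper90.Spinal

/-- Every spinal group has exponential geodesic growth with respect to its standard generating
set (the infinite dihedral case being excluded). -/
theorem result (X A B : Type) [DecidableEq X] [Group A] [Finite A] [Group B] [Finite B]
    [MulAction A X] [FaithfulSMul A X] [MulAction.IsPretransitive A X]
    (o : X) (ω : ℕ → X → B →* A)
    (h₁ : ∀ k y, y ≠ o → (∀ b, ω k y b = 1) ∨ Function.Surjective (ω k y))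
    (h₂ : ∀ k, ∃ y, y ≠ o ∧ Function.Surjective (ω k y))
    (h₃ : ∀ k b, b ≠ 1 → ∃ j ≥ k, ∃ y, y ≠ o ∧ ω j y b ≠ 1)
    (h₄ : ¬ (Nat.card X = 2 ∧ Nat.card B = 2)) :
    ∃ K : ℕ, 0 < K ∧ ∀ n, 2 ^ (n / K) ≤ geodesicGrowth (spinalGenerators o ω) n :=
  expo_growth ⟨h₁, h₂, h₃⟩ h₄

end Pool.Agent.Results.MP_bf8038_al.SpinalExp
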